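import Pool.Agent.Lib.GCI.Graded

/-!
# Dimension formula for adding a homogeneous generator, and the one-dimensional exchange lemma
-/

set_option autoImplicit false

namespace Pool.Agent.Lib.GCI

open MvPolynomial Module

variable {ι : Type*} {K : Type*} [Field K] (w : ι → ℕ)

/-- rank-nullity for a map restricted to a finite-dimensional subspace -/
theorem finrank_map_add {V V' : Type*} [AddCommGroup V] [Module K V] [AddCommGroup V']
    [Module K V'] (q : V →ₗ[K] V') (S : Submodule K V) [FiniteDimensional K S] :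
    finrank K (S.map q) + finrank K ↥(S ⊓ LinearMap.ker q) = finrank K S := by
  have h := LinearMap.finrank_range_add_finrank_ker (q.domRestrict S)
  rw [LinearMap.range_domRestrict] at h
  have h2 : LinearMap.ker (q.domRestrict S) = Submodule.comap S.subtype (S ⊓ LinearMap.ker q) := by
    rw [LinearMap.ker_domRestrict, Submodule.comap_inf, Submodule.comap_subtype_self, top_inf_eq]
  have h3 : finrank K ↥(LinearMap.ker (q.domRestrict S)) = finrank K ↥(S ⊓ LinearMap.ker q) := by
    rw [h2]
    exact (Submodule.comapSubtypeEquivOfLe (inf_le_left : S ⊓ LinearMap.ker q ≤ S)).finrank_eq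
  rw [← h3]
  exact h

/-- The space of weighted homogeneous polynomials of degree `d`. -/
noncomputable abbrev W (d : ℕ) : Submodule K (MvPolynomial ι K) :=
  weightedHomogeneousSubmodule K w d

/-- dimension of the degree `d` part of the ring -/
noncomputable def wdim (K : Type*) [Field K] (d : ℕ) : ℕ := finrank K (W (K := K) w d)

/-- dimension of the degree `d` part of the ideal -/
noncomputable def idim (I : Ideal (MvPolynomial ι K)) (d : ℕ) : ℕ :=
  finrank K ↥(W w d ⊓ I.restrictScalars K)

/-- multiplication by `f` followed by reduction modulo `I` -/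
noncomputable def mulMod (I : Ideal (MvPolynomial ι K)) (f : MvPolynomial ι K) :
    MvPolynomial ι K →ₗ[K] (MvPolynomial ι K ⧸ I.restrictScalars K) :=
  (I.restrictScalars K).mkQ ∘ₗ LinearMap.mulLeft K f

/-- dimension of the degree `d` part of the colon ideal `(I : f)` -/
noncomputable def kdim (I : Ideal (MvPolynomial ι K)) (f : MvPolynomial ι K) (d : ℕ) : ℕ :=
  finrank K ↥(W w d ⊓ LinearMap.ker (mulMod I f))

theorem mem_ker_mulMod {I : Ideal (MvPolynomial ι K)} {f u : MvPolynomial ι K} :
    u ∈ LinearMap.ker (mulMod I f) ↔ f * u ∈ I := by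
  unfold mulMod
  rw [LinearMap.mem_ker, LinearMap.comp_apply, Submodule.mkQ_apply, Submodule.Quotient.mk_eq_zero]
  rfl

variable {w}
variable [Finite ι] (hw : ∀ i, w i ≠ 0)

include hw in
theorem finite_W (d : ℕ) : FiniteDimensional K (W (K := K) w d) := by
  have := weightedHomogeneousSubmodule_fg K w hw d
  rwa [← Module.Finite.iff_fg] at this

include hw in
theorem idim_le_wdim (I : Ideal (MvPolynomial ι K)) (d : ℕ) : idim w I d ≤ wdim w K d := by
  have := finite_W (K := K) hw d
  exact Submodule.finrank_mono inf_le_left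

include hw in
theorem idim_le_kdim (I : Ideal (MvPolynomial ι K)) (f : MvPolynomial ι K) (d : ℕ) :
    idim w I d ≤ kdim w I f d := by
  have := finite_W (K := K) hw d
  have h2 : FiniteDimensional K ↥(W w d ⊓ LinearMap.ker (mulMod I f)) :=
    Submodule.finiteDimensional_of_le inf_le_left
  refine Submodule.finrank_mono ?_
  intro u hu
  exact ⟨hu.1, mem_ker_mulMod.mpr (I.mul_mem_left _ hu.2)⟩

include hw in
theorem idim_mono {I J : Ideal (MvPolynomial ι K)} (h : I ≤ J) (d : ℕ) :
    idim w I d ≤ idim w J d := by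
  have := finite_W (K := K) hw d
  have h2 : FiniteDimensional K ↥(W w d ⊓ J.restrictScalars K) :=
    Submodule.finiteDimensional_of_le inf_le_left
  refine Submodule.finrank_mono ?_
  intro u hu
  exact ⟨hu.1, h hu.2⟩

include hw in
/-- if the dimensions agree then the degree `d` part of the colon ideal is that of the ideal -/
theorem mem_of_kdim_eq {I : Ideal (MvPolynomial ι K)} {f : MvPolynomial ι K} {d : ℕ}
    (h : kdim w I f d = idim w I d) {u : MvPolynomial ι K} (hu : IsWeightedHomogeneous w u d)
    (hfu : f * u ∈ I) : u ∈ I := by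
  have := finite_W (K := K) hw d
  have h2 : FiniteDimensional K ↥(W w d ⊓ LinearMap.ker (mulMod I f)) :=
    Submodule.finiteDimensional_of_le inf_le_left
  have hle : (W w d ⊓ I.restrictScalars K) ≤ (W w d ⊓ LinearMap.ker (mulMod I f)) := by
    intro u hu
    exact ⟨hu.1, mem_ker_mulMod.mpr (I.mul_mem_left _ hu.2)⟩
  have h3 := Submodule.eq_of_le_of_finrank_eq hle h.symm
  have h4 : u ∈ W w d ⊓ LinearMap.ker (mulMod I f) := ⟨hu, mem_ker_mulMod.mpr hfu⟩
  rw [← h3] at h4
  exact h4.2

omit [Finite ι] in
theorem kdim_eq_of_reg {I : Ideal (MvPolynomial ι K)} {f : MvPolynomial ι K} (h : Reg I f)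
    (d : ℕ) : kdim w I f d = idim w I d := by
  unfold kdim idim
  have : W w d ⊓ LinearMap.ker (mulMod I f) = W w d ⊓ I.restrictScalars K := by
    ext u
    constructor
    · rintro ⟨h1, h2⟩
      exact ⟨h1, h _ (mem_ker_mulMod.mp h2)⟩
    · rintro ⟨h1, h2⟩
      refine ⟨h1, mem_ker_mulMod.mpr (I.mul_mem_left _ h2)⟩
  rw [this]

include hw in
/-- The dimension formula. -/
theorem dim_formula {I : Ideal (MvPolynomial ι K)} (hI : HomI w I) {f : MvPolynomial ι K} {a : ℕ}
    (hf : IsWeightedHomogeneous w f a) (d : ℕ) :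
    idim w (adj I f) (a + d) + kdim w I f d = idim w I (a + d) + wdim w K d := by
  have i1 := finite_W (K := K) hw d
  have i2 := finite_W (K := K) hw (a + d)
  have i3 : FiniteDimensional K ↥(W w (a + d) ⊓ (adj I f).restrictScalars K) :=
    Submodule.finiteDimensional_of_le inf_le_left
  have h1 := finrank_map_add (I.restrictScalars K).mkQ (W w (a + d) ⊓ (adj I f).restrictScalars K)
  have h2 := finrank_map_add (mulMod I f) (W w d)
  have h3 : (W w (a + d) ⊓ (adj I f).restrictScalars K) ⊓ LinearMap.ker (I.restrictScalars K).mkQ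
      = W w (a + d) ⊓ I.restrictScalars K := by
    rw [Submodule.ker_mkQ]
    ext u
    constructor
    · rintro ⟨⟨h1, _⟩, h3⟩
      exact ⟨h1, h3⟩
    · rintro ⟨h1, h3⟩
      exact ⟨⟨h1, le_adj I f h3⟩, h3⟩
  have h4 : (W w (a + d) ⊓ (adj I f).restrictScalars K).map (I.restrictScalars K).mkQ
      = (W w d).map (mulMod I f) := by
    apply le_antisymm
    · rintro _ ⟨u, ⟨hu1, hu2⟩, rfl⟩
      have hu2' : u ∈ adj I f := hu2
      rcases exists_homogeneous_repr hI hf hu1 hu2' with ⟨_, h5⟩ | ⟨i, hi, v, hv, _, rfl⟩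
      · omega
      · refine ⟨v, ?_, ?_⟩
        · rw [Nat.add_sub_cancel_left] at hv
          exact hv
        · unfold mulMod
          rw [LinearMap.comp_apply, map_add]
          have h6 : (I.restrictScalars K).mkQ i = 0 := by
            rw [Submodule.mkQ_apply, Submodule.Quotient.mk_eq_zero]
            exact hi
          rw [h6, zero_add]
          rfl
    · rintro _ ⟨v, hv, rfl⟩
      refine ⟨f * v, ⟨?_, ?_⟩, rfl⟩
      · exact hf.mul hv
      · exact Ideal.mul_mem_right _ _ (self_mem_adj I f)
  rw [h3, h4] at h1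
  unfold idim kdim wdim
  omega

omit [Finite ι] in
theorem idim_adj_lt {I : Ideal (MvPolynomial ι K)} (hI : HomI w I) {f : MvPolynomial ι K} {a : ℕ}
    (hf : IsWeightedHomogeneous w f a) {d : ℕ} (hd : d < a) :
    idim w (adj I f) d = idim w I d := by
  unfold idim
  have : W w d ⊓ (adj I f).restrictScalars K = W w d ⊓ I.restrictScalars K := by
    ext u
    constructor
    · rintro ⟨h1, h2⟩
      refine ⟨h1, ?_⟩
      rcases exists_homogeneous_repr hI hf h1 h2 with ⟨h5, _⟩ | ⟨i, hi, v, hv, hle, rfl⟩
      · exact h5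
      · omega
    · rintro ⟨h1, h2⟩
      exact ⟨h1, le_adj I f h2⟩
  rw [this]

variable (w) in
/-- `I` contains all the homogeneous polynomials of large degree. -/
def FC (I : Ideal (MvPolynomial ι K)) : Prop :=
  ∃ N, ∀ d, N ≤ d → ∀ p, IsWeightedHomogeneous w p d → p ∈ I

omit [Finite ι] in
theorem FC.idim_eq {I : Ideal (MvPolynomial ι K)} (h : FC w I) :
    ∃ N, ∀ d, N ≤ d → idim w I d = wdim w K d := by
  obtain ⟨N, hN⟩ := h
  refine ⟨N, fun d hd => ?_⟩
  unfold idim wdim
  have : W w d ⊓ I.restrictScalars K = W w d := by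
    rw [inf_eq_left]
    intro p hp
    exact hN d hd p hp
  rw [this]

include hw in
/-- The one-dimensional exchange lemma: if `h` is regular modulo `I`, and both `I + (h)` and
`I + (f)` have finite colength, then `f` is regular modulo `I`. -/
theorem Reg.exchange {I : Ideal (MvPolynomial ι K)} (hI : HomI w I) {h f : MvPolynomial ι K}
    {e a : ℕ} (he : 0 < e) (ha : 0 < a) (hh : IsWeightedHomogeneous w h e)
    (hf : IsWeightedHomogeneous w f a) (hreg : Reg I h) (fc1 : FC w (adj I h))
    (fc2 : FC w (adj I f)) : Reg I f := by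
  obtain ⟨N1, hN1⟩ := fc1.idim_eq
  obtain ⟨N2, hN2⟩ := fc2.idim_eq
  -- `δ d = wdim d - idim I d`
  have hper : ∀ d, N1 ≤ d → wdim w K (e + d) + idim w I d = idim w I (e + d) + wdim w K d := by
    intro d hd
    have h1 := dim_formula hw hI hh d
    rw [kdim_eq_of_reg hreg, hN1 _ (by omega)] at h1
    exact h1
  have hmono : ∀ d, N2 ≤ d → wdim w K (a + d) + kdim w I f d = idim w I (a + d) + wdim w K d := by
    intro d hd
    have h1 := dim_formula hw hI hf d
    rw [hN2 _ (by omega)] at h1
    exact h1
  have hper' : ∀ s d, N1 ≤ d →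
      wdim w K (s * e + d) + idim w I d = idim w I (s * e + d) + wdim w K d := by
    intro s d hd
    induction s with
    | zero => simp [add_comm]
    | succ s ih =>
      have h1 := hper (s * e + d) (by omega)
      have h2 : e + (s * e + d) = (s + 1) * e + d := by ring
      rw [h2] at h1
      omega
  have hmono' : ∀ s d, N2 ≤ d →
      wdim w K (s * a + d) + idim w I d ≤ idim w I (s * a + d) + wdim w K d := by
    intro s d hd
    induction s with
    | zero => simp [add_comm]
    | succ s ih =>
      have h1 := hmono (s * a + d) (by omega)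
      have h2 : a + (s * a + d) = (s + 1) * a + d := by ring
      rw [h2] at h1
      have h3 := idim_le_kdim hw I f (s * a + d)
      omega
  have hkey : ∀ d, N1 ≤ d → N2 ≤ d → kdim w I f d = idim w I d := by
    intro d hd1 hd2
    have h1 := hmono d hd2
    have h2 := idim_le_kdim hw I f d
    -- go `e - 1` more steps of `a` and compare with `a` steps of `e`
    have h3 := hmono' (e - 1) (a + d) (by omega)
    have h4 := hper' a d hd1
    have h5 : (e - 1) * a + (a + d) = a * e + d := by
      obtain ⟨e', rfl⟩ : ∃ e', e = e' + 1 := ⟨e - 1, by omega⟩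
      rw [Nat.add_sub_cancel]
      ring
    rw [h5] at h3
    omega
  refine Reg.of_homogeneous hI hf ?_
  intro d u hu hfu
  let s := N1 + N2
  have h1 : IsWeightedHomogeneous w (h ^ s * u) (s * e + d) := by
    have := (hh.pow s).mul hu
    rwa [smul_eq_mul] at this
  have h2 : f * (h ^ s * u) ∈ I := by
    have : f * (h ^ s * u) = h ^ s * (f * u) := by ring
    rw [this]
    exact I.mul_mem_left _ hfu
  have h3 : s ≤ s * e := Nat.le_mul_of_pos_right s he
  have h4 := mem_of_kdim_eq hw (hkey (s * e + d) (by omega) (by omega)) h1 h2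
  exact hreg.pow s _ h4

end Pool.Agent.Lib.GCI
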