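import Pool.Agent.Lib.GCI.Main

/-!
# The positivity theorem for general finite index types
-/

set_option autoImplicit false

namespace Pool.Agent.Lib.GCI

theorem exists_polynomial_fintype {ι κ : Type*} [Fintype ι] [Fintype κ]
    (hcard : Fintype.card ι = Fintype.card κ) (b : ι → ℕ) (a : κ → ℕ) (hb : ∀ i, b i ≠ 0)
    (ha : ∀ j, a j ≠ 0)
    (hall : ∀ L : Finset ι, L.Nonempty → ∃ J : Finset κ, L.card ≤ J.card ∧
      ∀ j ∈ J, a j ∈ AddSubmonoid.closure (b '' (L : Set ι))) :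
    ∃ P : Polynomial ℤ, (∀ n, 0 ≤ P.coeff n) ∧
      P * ∏ i, (1 - Polynomial.X ^ b i) = ∏ j, (1 - Polynomial.X ^ a j) := by
  classical
  let e1 : ι ≃ Fin (Fintype.card ι) := Fintype.equivFin ι
  let e2 : κ ≃ Fin (Fintype.card ι) := Fintype.equivFinOfCardEq hcard.symm
  have hall' : ∀ L : Finset (Fin (Fintype.card ι)), L.Nonempty →
      ∃ J : Finset (Fin (Fintype.card ι)), L.card ≤ J.card ∧
      ∀ j ∈ J, (a ∘ e2.symm) j ∈
        AddSubmonoid.closure ((b ∘ e1.symm) '' (L : Set (Fin (Fintype.card ι)))) := by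
    intro L hL
    obtain ⟨J, hJ1, hJ2⟩ := hall (L.map e1.symm.toEmbedding) (hL.map)
    refine ⟨J.map e2.toEmbedding, ?_, ?_⟩
    · rw [Finset.card_map] at hJ1 ⊢
      exact hJ1
    · intro j hj
      rw [Finset.mem_map] at hj
      obtain ⟨j', hj', rfl⟩ := hj
      have h1 := hJ2 j' hj'
      have h2 : b '' ((L.map e1.symm.toEmbedding : Finset ι) : Set ι) =
          (b ∘ e1.symm) '' (L : Set (Fin (Fintype.card ι))) := by
        rw [Finset.coe_map, Set.image_comp]
        rfl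
      rw [h2] at h1
      simpa using h1
  obtain ⟨P, hP1, hP2⟩ := exists_polynomial (Fintype.card ι) (b ∘ e1.symm) (a ∘ e2.symm)
    (fun i => hb _) (fun j => ha _) hall'
  refine ⟨P, hP1, ?_⟩
  rw [← Equiv.prod_comp e1.symm, ← Equiv.prod_comp e2.symm]
  exact hP2

end Pool.Agent.Lib.GCI
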