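import Pool.Agent.Lib.GCI.Vars

/-!
# Generic forms have few common zeros

Coefficients are algebraically independent complex numbers.
-/

set_option autoImplicit false

namespace Pool.Agent.Lib.GCI

open MvPolynomial

/-- a family of complex numbers, algebraically independent over `ℚ`, indexed by a countable type -/
theorem exists_algebraicIndependent (α : Type) [Countable α] :
    ∃ c : α → ℂ, AlgebraicIndependent ℚ c := by
  obtain ⟨κ, v, hv⟩ := exists_isTranscendenceBasis' ℚ ℂ
  have hcard : Cardinal.mk ℂ = Cardinal.mk κ :=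
    IsAlgClosed.cardinal_eq_cardinal_transcendence_basis_of_aleph0_lt' v hv
      (by simp) (by rw [Cardinal.mk_complex]; exact Cardinal.aleph0_lt_continuum)
  have hinf : Infinite κ := by
    rw [Cardinal.infinite_iff, ← hcard, Cardinal.mk_complex]
    exact Cardinal.aleph0_le_continuum
  obtain ⟨e, he⟩ := Countable.exists_injective_nat α
  refine ⟨fun x => v (Infinite.natEmbedding κ (e x)), ?_⟩
  exact hv.1.comp _ ((Infinite.natEmbedding κ).injective.comp he)

variable {ι : Type} [Fintype ι] [DecidableEq ι] {σ : Type} [Fintype σ] [DecidableEq σ]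
  {w : ι → ℕ}

/-- The form with monomials in `M` and coefficients `c`. -/
noncomputable def form (M : Finset (ι →₀ ℕ)) (c : (ι →₀ ℕ) → ℂ) : MvPolynomial ι ℂ :=
  ∑ m ∈ M, monomial m (c m)

omit [Fintype ι] [DecidableEq ι] in
theorem form_homogeneous {M : Finset (ι →₀ ℕ)} {D : ℕ}
    (hM : ∀ m ∈ M, Finsupp.weight w m = D) (c : (ι →₀ ℕ) → ℂ) :
    IsWeightedHomogeneous w (form M c) D := by
  unfold form
  exact IsWeightedHomogeneous.sum _ _ _ fun m hm =>
    isWeightedHomogeneous_monomial w m _ (hM m hm)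

/-- value of a monomial -/
noncomputable def mval (z : ι → ℂ) (m : ι →₀ ℕ) : ℂ := ∏ i, z i ^ m i

omit [DecidableEq ι] in
theorem eval_form (M : Finset (ι →₀ ℕ)) (c : (ι →₀ ℕ) → ℂ) (z : ι → ℂ) :
    eval z (form M c) = ∑ m ∈ M, c m * mval z m := by
  unfold form mval
  rw [map_sum]
  refine Finset.sum_congr rfl fun m _ => ?_
  rw [eval_monomial, Finsupp.prod_fintype _ _ (by simp)]

omit [DecidableEq ι] in
theorem mval_scale (z : ι → ℂ) (t : ℂ) (m : ι →₀ ℕ) :
    mval (fun i => t ^ w i * z i) m = t ^ (Finsupp.weight w m) * mval z m := by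
  unfold mval
  rw [Finsupp.weight_apply, Finsupp.sum_fintype _ _ (by simp), ← Finset.prod_pow_eq_pow_sum,
    ← Finset.prod_mul_distrib]
  refine Finset.prod_congr rfl fun i _ => ?_
  rw [mul_pow, ← pow_mul, smul_eq_mul, mul_comm (w i)]

open AlgebraicIndependent in
/-- Generic forms: if `z ≠ 0` is a common zero of the forms in `T`, each of which has a monomial
supported in the support of `z`, then there are fewer forms in `T` than nonzero coordinates. -/
theorem generic_zero (hw : ∀ i, w i ≠ 0) (M : σ → Finset (ι →₀ ℕ)) (D : σ → ℕ)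
    (hM : ∀ s, ∀ m ∈ M s, Finsupp.weight w m = D s) (c : σ × (ι →₀ ℕ) → ℂ)
    (hc : AlgebraicIndependent ℚ c) (z : ι → ℂ) (hz : z ≠ 0) (T : Finset σ)
    (hT0 : ∀ s ∈ T, eval z (form (M s) fun m => c (s, m)) = 0)
    (hT1 : ∀ s ∈ T, ∃ m ∈ M s, ∀ i, m i ≠ 0 → z i ≠ 0) :
    T.card < (Finset.univ.filter fun i => z i ≠ 0).card := by
  classical
  obtain ⟨l0, hl0⟩ := Function.ne_iff.mp hz
  rw [Pi.zero_apply] at hl0
  obtain ⟨t, ht⟩ := IsAlgClosed.exists_pow_nat_eq (z l0)⁻¹ (Nat.pos_of_ne_zero (hw l0))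
  have ht0 : t ≠ 0 := by
    rintro rfl
    rw [zero_pow (hw l0)] at ht
    exact inv_ne_zero hl0 ht.symm
  let z' : ι → ℂ := fun i => t ^ w i * z i
  have hz'0 : z' l0 = 1 := by
    show t ^ w l0 * z l0 = 1
    rw [ht, inv_mul_cancel₀ hl0]
  have hz'iff : ∀ i, z' i ≠ 0 ↔ z i ≠ 0 := by
    intro i
    show t ^ w i * z i ≠ 0 ↔ _
    rw [mul_ne_zero_iff]
    exact and_iff_right (pow_ne_zero _ ht0)
  have hT0' : ∀ s ∈ T, ∑ m ∈ M s, c (s, m) * mval z' m = 0 := by
    intro s hs
    have h1 := hT0 s hs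
    rw [eval_form] at h1
    have h2 : ∀ m ∈ M s, c (s, m) * mval z' m = t ^ D s * (c (s, m) * mval z m) := by
      intro m hm
      show c (s, m) * mval (fun i => t ^ w i * z i) m = _
      rw [mval_scale, hM s m hm]
      ring
    rw [Finset.sum_congr rfl h2, ← Finset.mul_sum, h1, mul_zero]
  choose! μ hμ1 hμ2 using hT1
  -- the set of all pairs, and the pairs that are determined
  let Λ : Finset (σ × (ι →₀ ℕ)) := Finset.univ.biUnion fun s => (M s).image fun m => (s, m)
  have hΛ : ∀ x : σ × (ι →₀ ℕ), x ∈ Λ ↔ x.2 ∈ M x.1 := by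
    rintro ⟨s, m⟩
    simp only [Λ, Finset.mem_biUnion, Finset.mem_univ, true_and, Finset.mem_image, Prod.mk.injEq]
    constructor
    · rintro ⟨s', m', hm', rfl, rfl⟩; exact hm'
    · intro h; exact ⟨s, m, h, rfl, rfl⟩
  let Δ : Finset (σ × (ι →₀ ℕ)) := T.image fun s => (s, μ s)
  have hΔcard : Δ.card = T.card := by
    refine Finset.card_image_of_injective _ ?_
    intro a b hab
    exact (Prod.mk.injEq _ _ _ _ ▸ hab).1
  have hΔsub : Δ ⊆ Λ := by
    intro x hx
    rw [Finset.mem_image] at hx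
    obtain ⟨s, hs, rfl⟩ := hx
    rw [hΛ]
    exact hμ1 s hs
  let Z : Finset ι := Finset.univ.filter fun i => z i ≠ 0 ∧ i ≠ l0
  let S : Finset ℂ := Z.image z' ∪ (Λ \ Δ).image c
  have hScard : S.card ≤ ((Finset.univ.filter fun i => z i ≠ 0).card - 1) + (Λ.card - T.card) := by
    refine (Finset.card_union_le _ _).trans (Nat.add_le_add ?_ ?_)
    · refine Finset.card_image_le.trans ?_
      have : Z = (Finset.univ.filter fun i => z i ≠ 0).erase l0 := by
        ext i
        simp only [Z, Finset.mem_filter, Finset.mem_univ, true_and, Finset.mem_erase]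
        tauto
      rw [this, Finset.card_erase_of_mem (by simpa using hl0)]
    · refine Finset.card_image_le.trans ?_
      rw [Finset.card_sdiff_of_subset hΔsub, hΔcard]
  -- algebraicity
  have halg0 : ∀ x ∈ S, IsAlgebraic (Algebra.adjoin ℚ (S : Set ℂ)) x := by
    intro x hx
    exact isAlgebraic_algebraMap (⟨x, Algebra.subset_adjoin hx⟩ : Algebra.adjoin ℚ (S : Set ℂ))
  have halgz : ∀ i, IsAlgebraic (Algebra.adjoin ℚ (S : Set ℂ)) (z' i) := by
    intro i
    by_cases hi : z i = 0
    · have : z' i = 0 := by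
        by_contra h
        exact (hz'iff i).mp h hi
      rw [this]
      exact isAlgebraic_zero
    · by_cases hi2 : i = l0
      · rw [hi2, hz'0]
        exact isAlgebraic_one
      · apply halg0
        apply Finset.mem_union_left
        exact Finset.mem_image_of_mem _ (by simp [Z, hi, hi2])
  have halgm : ∀ m, IsAlgebraic (Algebra.adjoin ℚ (S : Set ℂ)) (mval z' m) := by
    intro m
    unfold mval
    refine Finset.prod_induction _ _ (fun _ _ => IsAlgebraic.mul) isAlgebraic_one ?_
    intro i _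
    exact (halgz i).pow _
  have halgc : ∀ x ∈ Λ, IsAlgebraic (Algebra.adjoin ℚ (S : Set ℂ)) (c x) := by
    intro x hx
    by_cases hxΔ : x ∈ Δ
    · rw [Finset.mem_image] at hxΔ
      obtain ⟨s, hs, rfl⟩ := hxΔ
      have h1 := hT0' s hs
      rw [← Finset.add_sum_erase _ _ (hμ1 s hs)] at h1
      have h2 : mval z' (μ s) ≠ 0 := by
        unfold mval
        rw [Finset.prod_ne_zero_iff]
        intro i _
        by_cases hi : (μ s) i = 0
        · rw [hi, pow_zero]; exact one_ne_zero
        · exact pow_ne_zero _ ((hz'iff i).mpr (hμ2 s hs i hi))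
      have h3 : c (s, μ s) =
          -(∑ m ∈ (M s).erase (μ s), c (s, m) * mval z' m) * (mval z' (μ s))⁻¹ := by
        rw [eq_mul_inv_iff_mul_eq₀ h2]
        linear_combination h1
      rw [h3]
      refine IsAlgebraic.mul (IsAlgebraic.neg ?_) (halgm _).inv
      refine Finset.sum_induction _ _ (fun _ _ => IsAlgebraic.add) isAlgebraic_zero ?_
      intro m hm
      rw [Finset.mem_erase] at hm
      refine IsAlgebraic.mul (halg0 _ ?_) (halgm m)
      apply Finset.mem_union_right
      apply Finset.mem_image_of_mem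
      rw [Finset.mem_sdiff, hΛ]
      refine ⟨hm.2, ?_⟩
      intro hcon
      rw [Finset.mem_image] at hcon
      obtain ⟨s', _, hs'⟩ := hcon
      rw [Prod.mk.injEq] at hs'
      obtain ⟨rfl, h4⟩ := hs'
      exact hm.1 h4.symm
    · apply halg0
      apply Finset.mem_union_right
      exact Finset.mem_image_of_mem _ (Finset.mem_sdiff.mpr ⟨hx, hxΔ⟩)
  -- matroid rank
  have hind : (matroid ℚ ℂ).Indep (c '' (Λ : Set (σ × (ι →₀ ℕ)))) := by
    rw [matroid_indep_iff]
    have h1 : AlgebraicIndepOn ℚ c (Λ : Set (σ × (ι →₀ ℕ))) :=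
      hc.comp _ Subtype.val_injective
    exact h1.image
  have hsub : c '' (Λ : Set (σ × (ι →₀ ℕ))) ⊆ (matroid ℚ ℂ).closure (S : Set ℂ) := by
    rw [matroid_closure_eq]
    rintro _ ⟨x, hx, rfl⟩
    exact halgc x hx
  have h1 := hind.encard_le_eRk_of_subset hsub
  rw [Matroid.eRk_closure_eq] at h1
  have h2 := h1.trans ((matroid ℚ ℂ).eRk_le_encard (S : Set ℂ))
  rw [hc.injective.encard_image, Set.encard_coe_eq_coe_finsetCard,
    Set.encard_coe_eq_coe_finsetCard] at h2
  have h3 : Λ.card ≤ S.card := by exact_mod_cast h2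
  have h4 : T.card ≤ Λ.card := by
    rw [← hΔcard]
    exact Finset.card_le_card hΔsub
  have h5 : 0 < (Finset.univ.filter fun i => z i ≠ 0).card :=
    Finset.card_pos.mpr ⟨l0, by simpa using hl0⟩
  omega

end Pool.Agent.Lib.GCI
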