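import Mathlib

/-!
# Graded ideals in weighted polynomial rings

Elementary facts on homogeneous ideals of `MvPolynomial ι K` for a positive weight function
`w : ι → ℕ`: colon ideals, regular elements, and the dimension formula for adding one homogeneous
generator.
-/

set_option autoImplicit false

namespace Pool.Agent.Lib.GCI

open MvPolynomial

variable {ι : Type*} {K : Type*} [Field K] (w : ι → ℕ)

attribute [local instance] MvPolynomial.weightedGradedAlgebra

/-- `I` contains all the homogeneous components of its elements. -/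
def HomI (I : Ideal (MvPolynomial ι K)) : Prop :=
  ∀ p ∈ I, ∀ d, weightedHomogeneousComponent w d p ∈ I

variable {w}

theorem cmp_mul_add {f u : MvPolynomial ι K} {a : ℕ} (hf : IsWeightedHomogeneous w f a) (d : ℕ) :
    weightedHomogeneousComponent w (a + d) (f * u) = f * weightedHomogeneousComponent w d u := by
  have h := DirectSum.coe_decompose_mul_add_of_left_mem
    (𝒜 := weightedHomogeneousSubmodule K w) (a := f) (b := u) (i := a) (j := d) hf
  simp_rw [← weightedDecomposition.decompose'_apply]
  exact h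

theorem cmp_mul_lt {f u : MvPolynomial ι K} {a : ℕ} (hf : IsWeightedHomogeneous w f a) {d : ℕ}
    (hd : d < a) :
    weightedHomogeneousComponent w d (f * u) = 0 := by
  have h := DirectSum.coe_decompose_mul_of_left_mem_of_not_le
    (𝒜 := weightedHomogeneousSubmodule K w) (a := f) (b := u) (i := a) (n := d) hf (by omega)
  simp_rw [← weightedDecomposition.decompose'_apply]
  exact h

theorem mem_of_cmp {I : Ideal (MvPolynomial ι K)} {p : MvPolynomial ι K}
    (h : ∀ d, weightedHomogeneousComponent w d p ∈ I) : p ∈ I := by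
  rw [← sum_weightedHomogeneousComponent w p,
    finsum_eq_sum _ (weightedHomogeneousComponent_finsupp p)]
  exact I.sum_mem fun d _ => h d

/-- the ideal `I + (f)` -/
noncomputable def adj (I : Ideal (MvPolynomial ι K)) (f : MvPolynomial ι K) : Ideal (MvPolynomial ι K) :=
  I ⊔ Ideal.span {f}

theorem mem_adj {I : Ideal (MvPolynomial ι K)} {f p : MvPolynomial ι K} :
    p ∈ adj I f ↔ ∃ i ∈ I, ∃ u, p = i + f * u := by
  unfold adj
  rw [Submodule.mem_sup]
  constructor
  · rintro ⟨i, hi, z, hz, rfl⟩
    rw [Ideal.mem_span_singleton'] at hz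
    obtain ⟨u, rfl⟩ := hz
    exact ⟨i, hi, u, by ring⟩
  · rintro ⟨i, hi, u, rfl⟩
    exact ⟨i, hi, f * u, Ideal.mul_mem_right _ _ (Ideal.mem_span_singleton_self f), rfl⟩

theorem le_adj (I : Ideal (MvPolynomial ι K)) (f : MvPolynomial ι K) : I ≤ adj I f :=
  le_sup_left

theorem self_mem_adj (I : Ideal (MvPolynomial ι K)) (f : MvPolynomial ι K) : f ∈ adj I f :=
  Ideal.mem_sup_right (Ideal.mem_span_singleton_self f)

theorem adj_comm (I : Ideal (MvPolynomial ι K)) (f g : MvPolynomial ι K) :
    adj (adj I f) g = adj (adj I g) f := by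
  unfold adj
  rw [sup_assoc, sup_comm (Ideal.span {f}), ← sup_assoc]

theorem HomI.bot : HomI w (⊥ : Ideal (MvPolynomial ι K)) := by
  intro p hp d
  rw [Ideal.mem_bot] at hp
  subst hp
  simp

theorem HomI.adj {I : Ideal (MvPolynomial ι K)} (hI : HomI w I) {f : MvPolynomial ι K} {a : ℕ}
    (hf : IsWeightedHomogeneous w f a) : HomI w (adj I f) := by
  intro p hp d
  rw [mem_adj] at hp
  obtain ⟨i, hi, u, rfl⟩ := hp
  rw [map_add]
  refine Ideal.add_mem _ (le_adj I f (hI i hi d)) ?_
  rcases lt_or_ge d a with hd | hd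
  · rw [cmp_mul_lt hf hd]; exact Ideal.zero_mem _
  · obtain ⟨e, rfl⟩ := Nat.exists_eq_add_of_le hd
    rw [cmp_mul_add hf]
    exact Ideal.mul_mem_right _ _ (self_mem_adj I f)

/-- `f` is a nonzerodivisor modulo `I`. -/
def Reg (I : Ideal (MvPolynomial ι K)) (f : MvPolynomial ι K) : Prop :=
  ∀ u, f * u ∈ I → u ∈ I

/-- It is enough to test regularity of a homogeneous element on homogeneous elements. -/
theorem Reg.of_homogeneous {I : Ideal (MvPolynomial ι K)} (hI : HomI w I) {f : MvPolynomial ι K}
    {a : ℕ} (hf : IsWeightedHomogeneous w f a)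
    (h : ∀ d u, IsWeightedHomogeneous w u d → f * u ∈ I → u ∈ I) : Reg I f := by
  intro u hu
  refine mem_of_cmp (w := w) fun d => ?_
  refine h d _ (weightedHomogeneousComponent_isWeightedHomogeneous d u) ?_
  rw [← cmp_mul_add hf]
  exact hI _ hu _

/-- If `u` is homogeneous of degree `d` in `I + (g)` with `g` homogeneous of degree `e`, then
`u = i + g v` with `v` homogeneous of degree `d - e` (or `u ∈ I` when `d < e`). -/
theorem exists_homogeneous_repr {I : Ideal (MvPolynomial ι K)} (hI : HomI w I)
    {g : MvPolynomial ι K} {e : ℕ} (hg : IsWeightedHomogeneous w g e) {d : ℕ}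
    {u : MvPolynomial ι K} (hu : IsWeightedHomogeneous w u d) (hmem : u ∈ adj I g) :
    (u ∈ I ∧ d < e) ∨
      ∃ i ∈ I, ∃ v, IsWeightedHomogeneous w v (d - e) ∧ e ≤ d ∧ u = i + g * v := by
  rw [mem_adj] at hmem
  obtain ⟨i, hi, v, huv⟩ := hmem
  have h1 : u = weightedHomogeneousComponent w d i + weightedHomogeneousComponent w d (g * v) := by
    rw [← map_add, ← huv, weightedHomogeneousComponent_eq_self hu]
  rcases lt_or_ge d e with hd | hd
  · left
    rw [cmp_mul_lt hg hd, add_zero] at h1
    rw [h1]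
    exact ⟨hI i hi d, hd⟩
  · right
    obtain ⟨c, rfl⟩ := Nat.exists_eq_add_of_le hd
    rw [cmp_mul_add hg] at h1
    refine ⟨_, hI i hi (e + c), _, ?_, hd, h1⟩
    rw [Nat.add_sub_cancel_left]
    exact weightedHomogeneousComponent_isWeightedHomogeneous c v

/-- Swap lemma, first half. -/
theorem Reg.swap_left {I : Ideal (MvPolynomial ι K)} (hI : HomI w I) {g h : MvPolynomial ι K}
    {e a : ℕ} (he : 0 < e) (hg : IsWeightedHomogeneous w g e) (hh : IsWeightedHomogeneous w h a)
    (h1 : Reg I g) (h2 : Reg (adj I g) h) : Reg I h := by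
  refine Reg.of_homogeneous hI hh ?_
  intro d
  induction d using Nat.strong_induction_on with
  | _ d ih =>
    intro u hu hhu
    have h3 : u ∈ adj I g := h2 u (le_adj I g hhu)
    rcases exists_homogeneous_repr hI hg hu h3 with h4 | ⟨i, hi, v, hv, hle, rfl⟩
    · exact h4.1
    · have h5 : g * (h * v) ∈ I := by
        have : g * (h * v) = h * (i + g * v) - h * i := by ring
        rw [this]
        exact I.sub_mem hhu (I.mul_mem_left _ hi)
      have h6 : v ∈ I := ih (d - e) (by omega) v hv (h1 _ h5)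
      exact I.add_mem hi (I.mul_mem_left _ h6)

/-- Swap lemma, second half. -/
theorem Reg.swap_right {I : Ideal (MvPolynomial ι K)} {g h : MvPolynomial ι K}
    (h1 : Reg I g) (h2 : Reg (adj I g) h) : Reg (adj I h) g := by
  intro u hu
  rw [mem_adj] at hu
  obtain ⟨i, hi, v, huv⟩ := hu
  have h3 : h * v ∈ adj I g := by
    rw [mem_adj]
    exact ⟨-i, I.neg_mem hi, u, by rw [huv]; ring⟩
  have h4 := h2 v h3
  rw [mem_adj] at h4
  obtain ⟨j, hj, v', rfl⟩ := h4
  have h5 : g * (u - h * v') ∈ I := by
    have : g * (u - h * v') = i + h * j := by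
      rw [mul_sub, huv]; ring
    rw [this]
    exact I.add_mem hi (I.mul_mem_left _ hj)
  have h6 := h1 _ h5
  rw [mem_adj]
  exact ⟨_, h6, v', by ring⟩

theorem Reg.pow {I : Ideal (MvPolynomial ι K)} {h : MvPolynomial ι K} (hr : Reg I h) (s : ℕ) :
    Reg I (h ^ s) := by
  induction s with
  | zero => intro u hu; simpa using hu
  | succ s ih =>
    intro u hu
    refine hr u (ih _ ?_)
    rw [pow_succ, mul_assoc] at hu
    exact hu

end Pool.Agent.Lib.GCI
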