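import Pool.Agent.Lib.GCI.Null

/-!
# Positivity of `∏ (1 - X ^ a j) / ∏ (1 - X ^ b i)` under a Hall-type condition

If for every nonempty set `L` of indices at least `|L|` of the numbers `a j` lie in the numerical
semigroup generated by the `b i` with `i ∈ L`, then generic weighted homogeneous forms of degrees
`a j` in variables of weights `b i` form a regular sequence, and the quotient above is the Hilbert
polynomial of the corresponding finite-dimensional quotient ring.
-/

set_option autoImplicit false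

namespace Pool.Agent.Lib.GCI

open MvPolynomial

/-- membership in the numerical semigroup gives a monomial -/
theorem exists_monomial_of_mem {k : ℕ} (b : Fin k → ℕ) (L : Finset (Fin k)) {n : ℕ}
    (hn : n ∈ AddSubmonoid.closure (b '' (L : Set (Fin k)))) :
    ∃ m : Fin k →₀ ℕ, Finsupp.weight b m = n ∧ ∀ i, m i ≠ 0 → i ∈ L := by
  induction hn using AddSubmonoid.closure_induction with
  | mem x hx =>
    obtain ⟨i, hi, rfl⟩ := hx
    refine ⟨Finsupp.single i 1, ?_, ?_⟩
    · rw [Finsupp.weight_single, one_smul]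
    · intro j hj
      by_contra hcon
      apply hj
      rw [Finsupp.single_apply, if_neg]
      rintro rfl
      exact hcon hi
  | zero => exact ⟨0, by simp, by simp⟩
  | add x y _ _ hx hy =>
    obtain ⟨m1, h1, h1'⟩ := hx
    obtain ⟨m2, h2, h2'⟩ := hy
    refine ⟨m1 + m2, by rw [map_add, h1, h2], ?_⟩
    intro i hi
    rw [Finsupp.add_apply] at hi
    by_cases h : m1 i = 0
    · exact h2' i (by omega)
    · exact h1' i h

/-- extend a finite sequence by zero -/
noncomputable def ext0 {k : ℕ} (F : Fin k → MvPolynomial (Fin k) ℂ) (n : ℕ) :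
    MvPolynomial (Fin k) ℂ :=
  if h : n < k then F ⟨n, h⟩ else 0

theorem ext0_lt {k : ℕ} (F : Fin k → MvPolynomial (Fin k) ℂ) {n : ℕ} (h : n < k) :
    ext0 F n = F ⟨n, h⟩ := dif_pos h

theorem map_range_ext0 {k : ℕ} (F : Fin k → MvPolynomial (Fin k) ℂ) :
    (List.range k).map (ext0 F) = (List.finRange k).map F := by
  rw [← List.map_coe_finRange_eq_range, List.map_map]
  refine List.map_congr_left fun i _ => ?_
  show ext0 F i = F i
  rw [ext0_lt F i.2]

theorem mixed_zero {k : ℕ} (f g : ℕ → MvPolynomial (Fin k) ℂ) :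
    mixed k f g 0 = (List.range k).map g := by
  unfold mixed
  rw [List.range_zero, List.map_nil, List.nil_append, Nat.sub_zero, List.range_eq_range']

theorem mixed_last {k : ℕ} (f g : ℕ → MvPolynomial (Fin k) ℂ) :
    mixed k f g k = (List.range k).map f := by
  unfold mixed
  rw [Nat.sub_self]
  simp

/-- **Main theorem.** -/
theorem exists_polynomial (k : ℕ) (b a : Fin k → ℕ) (hb : ∀ i, b i ≠ 0) (ha : ∀ j, a j ≠ 0)
    (hall : ∀ L : Finset (Fin k), L.Nonempty → ∃ J : Finset (Fin k), L.card ≤ J.card ∧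
      ∀ j ∈ J, a j ∈ AddSubmonoid.closure (b '' (L : Set (Fin k)))) :
    ∃ P : Polynomial ℤ, (∀ n, 0 ≤ P.coeff n) ∧
      P * ∏ i, (1 - Polynomial.X ^ b i) = ∏ j, (1 - Polynomial.X ^ a j) := by
  classical
  -- the common degree
  let D : ℕ := ∏ i, b i
  have hD : 0 < D := Finset.prod_pos fun i _ => Nat.pos_of_ne_zero (hb i)
  have hDdvd : ∀ i, b i ∣ D := fun i => Finset.dvd_prod_of_mem b (Finset.mem_univ i)
  -- monomials
  let MF : Fin k → Finset (Fin k →₀ ℕ) := fun j =>
    (Finsupp.finite_of_nat_weight_eq b hb (a j)).toFinset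
  let MH : Finset (Fin k →₀ ℕ) := Finset.univ.image fun l => Finsupp.single l (D / b l)
  have hMF : ∀ j m, m ∈ MF j ↔ Finsupp.weight b m = a j := by
    intro j m
    simp only [MF, Set.Finite.mem_toFinset, Set.mem_ofPred_eq]
  have hMH : ∀ m ∈ MH, Finsupp.weight b m = D := by
    intro m hm
    rw [Finset.mem_image] at hm
    obtain ⟨l, _, rfl⟩ := hm
    rw [Finsupp.weight_single, smul_eq_mul]
    exact Nat.div_mul_cancel (hDdvd l)
  let M : Fin k ⊕ Fin k → Finset (Fin k →₀ ℕ) := Sum.elim MF fun _ => MH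
  let dg : Fin k ⊕ Fin k → ℕ := Sum.elim a fun _ => D
  have hM : ∀ s, ∀ m ∈ M s, Finsupp.weight b m = dg s := by
    rintro (j | j) m hm
    · exact (hMF j m).mp hm
    · exact hMH m hm
  obtain ⟨c, hc⟩ := exists_algebraicIndependent ((Fin k ⊕ Fin k) × (Fin k →₀ ℕ))
  let G : Fin k ⊕ Fin k → MvPolynomial (Fin k) ℂ := fun s => form (M s) fun m => c (s, m)
  have hG : ∀ s, IsWeightedHomogeneous b (G s) (dg s) := fun s => form_homogeneous (hM s) _
  let F : Fin k → MvPolynomial (Fin k) ℂ := fun j => G (Sum.inl j)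
  let H : Fin k → MvPolynomial (Fin k) ℂ := fun j => G (Sum.inr j)
  let x : Fin k → MvPolynomial (Fin k) ℂ := fun i => X i
  have hf : ∀ j, j < k → ∃ a, 0 < a ∧ IsWeightedHomogeneous b (ext0 F j) a := by
    intro j hj
    rw [ext0_lt F hj]
    exact ⟨a ⟨j, hj⟩, Nat.pos_of_ne_zero (ha _), hG (Sum.inl ⟨j, hj⟩)⟩
  have hh : ∀ j, j < k → ∃ a, 0 < a ∧ IsWeightedHomogeneous b (ext0 H j) a := by
    intro j hj
    rw [ext0_lt H hj]
    exact ⟨D, hD, hG (Sum.inr ⟨j, hj⟩)⟩
  have hx : ∀ j, j < k → ∃ a, 0 < a ∧ IsWeightedHomogeneous b (ext0 x j) a := by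
    intro j hj
    rw [ext0_lt x hj]
    exact ⟨b ⟨j, hj⟩, Nat.pos_of_ne_zero (hb _), isWeightedHomogeneous_X ℂ b _⟩
  -- support argument for the forms `H`
  have hHmon : ∀ (z : Fin k → ℂ), z ≠ 0 → ∀ i : Fin k,
      ∃ m ∈ M (Sum.inr i), ∀ l, m l ≠ 0 → z l ≠ 0 := by
    intro z hz i
    obtain ⟨l0, hl0⟩ := Function.ne_iff.mp hz
    refine ⟨Finsupp.single l0 (D / b l0), Finset.mem_image_of_mem _ (Finset.mem_univ _), ?_⟩
    intro l hl
    rw [Finsupp.single_apply] at hl
    split_ifs at hl with h
    · subst h; exact hl0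
    · exact absurd rfl hl
  -- finite colength of all the mixed sequences
  have fc1 : ∀ j, j ≤ k → FC b (idl (mixed k (ext0 H) (ext0 x) j)) := by
    intro j hj
    refine FC.of_zero _ fun z hz => ?_
    by_contra hne
    let T : Finset (Fin k ⊕ Fin k) := (Finset.univ.filter fun i : Fin k => (i : ℕ) < j).image Sum.inr
    have h1 := generic_zero hb M dg hM c hc z hne T ?_ ?_
    · have h2 : T.card = (Finset.univ.filter fun i : Fin k => (i : ℕ) < j).card :=
        Finset.card_image_of_injective _ Sum.inr_injective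
      rw [h2] at h1
      refine absurd h1 (not_lt.mpr (Finset.card_le_card ?_))
      intro i hi
      rw [Finset.mem_filter] at hi ⊢
      refine ⟨Finset.mem_univ _, ?_⟩
      by_contra hcon
      apply hi.2
      have h3 := hz (ext0 x i) ((mem_mixed hj).mpr (Or.inr ⟨i, by omega, i.2, rfl⟩))
      rw [ext0_lt x i.2] at h3
      simpa [x] using h3
    · intro s hs
      rw [Finset.mem_image] at hs
      obtain ⟨i, hi, rfl⟩ := hs
      rw [Finset.mem_filter] at hi
      have h3 := hz (ext0 H i) ((mem_mixed hj).mpr (Or.inl ⟨i, hi.2, rfl⟩))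
      rw [ext0_lt H i.2] at h3
      exact h3
    · intro s hs
      rw [Finset.mem_image] at hs
      obtain ⟨i, _, rfl⟩ := hs
      exact hHmon z hne i
  have fc2 : ∀ j, j ≤ k → FC b (idl (mixed k (ext0 F) (ext0 H) j)) := by
    intro j hj
    refine FC.of_zero _ fun z hz => ?_
    by_contra hne
    let L : Finset (Fin k) := Finset.univ.filter fun i => z i ≠ 0
    have hL : L.Nonempty := by
      obtain ⟨l0, hl0⟩ := Function.ne_iff.mp hne
      exact ⟨l0, by simpa [L] using hl0⟩
    obtain ⟨A, hA1, hA2⟩ := hall L hL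
    let A1 : Finset (Fin k) := A.filter fun i => (i : ℕ) < j
    let A2 : Finset (Fin k) := Finset.univ.filter fun i => ¬ (i : ℕ) < j
    let T : Finset (Fin k ⊕ Fin k) := A1.image Sum.inl ∪ A2.image Sum.inr
    have h1 := generic_zero hb M dg hM c hc z hne T ?_ ?_
    · have h2 : T.card = A1.card + A2.card := by
        rw [Finset.card_union_of_disjoint, Finset.card_image_of_injective _ Sum.inl_injective,
          Finset.card_image_of_injective _ Sum.inr_injective]
        rw [Finset.disjoint_left]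
        intro s hs1 hs2
        rw [Finset.mem_image] at hs1 hs2
        obtain ⟨i, _, rfl⟩ := hs1
        obtain ⟨i', _, h⟩ := hs2
        exact Sum.inr_ne_inl h
      have h3 : A.card ≤ A1.card + A2.card := by
        have h4 : A ⊆ A1 ∪ A2 := by
          intro i hi
          rw [Finset.mem_union]
          by_cases h : (i : ℕ) < j
          · exact Or.inl (Finset.mem_filter.mpr ⟨hi, h⟩)
          · exact Or.inr (Finset.mem_filter.mpr ⟨Finset.mem_univ _, h⟩)
        exact (Finset.card_le_card h4).trans (Finset.card_union_le _ _)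
      have h5 : L.card ≤ A.card := hA1
      have h6 : T.card < L.card := h1
      omega
    · intro s hs
      rw [Finset.mem_union, Finset.mem_image, Finset.mem_image] at hs
      rcases hs with ⟨i, hi, rfl⟩ | ⟨i, hi, rfl⟩
      · rw [Finset.mem_filter] at hi
        have h3 := hz (ext0 F i) ((mem_mixed hj).mpr (Or.inl ⟨i, hi.2, rfl⟩))
        rw [ext0_lt F i.2] at h3
        exact h3
      · rw [Finset.mem_filter] at hi
        have h3 := hz (ext0 H i) ((mem_mixed hj).mpr (Or.inr ⟨i, by omega, i.2, rfl⟩))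
        rw [ext0_lt H i.2] at h3
        exact h3
    · intro s hs
      rw [Finset.mem_union, Finset.mem_image, Finset.mem_image] at hs
      rcases hs with ⟨i, hi, rfl⟩ | ⟨i, hi, rfl⟩
      · rw [Finset.mem_filter] at hi
        obtain ⟨m, hm1, hm2⟩ := exists_monomial_of_mem b L (hA2 i hi.1)
        refine ⟨m, (hMF i m).mpr hm1, ?_⟩
        intro l hl
        have h7 := hm2 l hl
        rw [Finset.mem_filter] at h7
        exact h7.2
      · exact hHmon z hne i
  -- the exchanges
  have r0 : RegSeq (mixed k (ext0 H) (ext0 x) 0) := by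
    rw [mixed_zero, map_range_ext0]
    exact regSeq_map_X (List.nodup_finRange k)
  have r1 := exchange_all hb k (ext0 H) (ext0 x) hh hx fc1 r0 k le_rfl
  rw [mixed_last, ← mixed_zero (ext0 F)] at r1
  have r2 := exchange_all hb k (ext0 F) (ext0 H) hf hh fc2 r1 k le_rfl
  have fc3 := fc2 k le_rfl
  rw [mixed_last, map_range_ext0] at r2 fc3
  -- Hilbert series
  have s1 := hs_idl hb ((List.finRange k).map fun j => (F j, a j)) ?_ ?_
  rotate_left
  · intro y hy
    rw [List.mem_map] at hy
    obtain ⟨j, _, rfl⟩ := hy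
    exact ⟨Nat.pos_of_ne_zero (ha j), hG (Sum.inl j)⟩
  · rw [List.map_map]
    exact r2
  rw [List.map_map, List.map_map] at s1
  have s2 := prod_mul_hs_bot (K := ℂ) hb (List.nodup_finRange k) (List.mem_finRange)
  obtain ⟨N, hN⟩ := fc3.idim_eq
  set Q : PowerSeries ℤ := hs b (idl ((List.finRange k).map F)) with hQ
  have hQN : ∀ n, N ≤ n → PowerSeries.coeff n Q = 0 := by
    intro n hn
    rw [hQ]
    unfold hs
    rw [PowerSeries.coeff_mk, hN n hn, sub_self]
  have hQ0 : ∀ n, 0 ≤ PowerSeries.coeff n Q := by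
    intro n
    rw [hQ]
    unfold hs
    rw [PowerSeries.coeff_mk]
    have := idim_le_wdim hb (idl ((List.finRange k).map F)) n
    have h : (idim b (idl ((List.finRange k).map F)) n : ℤ) ≤ wdim b ℂ n := by exact_mod_cast this
    linarith
  have hP : ((PowerSeries.trunc N Q : Polynomial ℤ) : PowerSeries ℤ) = Q := by
    ext n
    rw [Polynomial.coeff_coe, PowerSeries.coeff_trunc]
    split_ifs with h
    · rfl
    · exact (hQN n (by omega)).symm
  refine ⟨PowerSeries.trunc N Q, ?_, ?_⟩
  · intro n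
    rw [← Polynomial.coeff_coe, hP]
    exact hQ0 n
  · rw [← Polynomial.coe_inj, Polynomial.coe_mul, hP]
    have e1 : ∀ e : Fin k → ℕ, ((∏ i, (1 - Polynomial.X ^ e i) : Polynomial ℤ) : PowerSeries ℤ) =
        ((List.finRange k).map fun i => (1 - PowerSeries.X ^ (e i) : PowerSeries ℤ)).prod := by
      intro e
      rw [← Polynomial.coeToPowerSeries.ringHom_apply, map_prod, ← List.ofFn_eq_map,
        List.prod_ofFn]
      refine Finset.prod_congr rfl fun i _ => ?_
      simp
    rw [e1 b, e1 a]
    have s3 : Q = ((List.finRange k).map fun i => (1 - PowerSeries.X ^ (a i) : PowerSeries ℤ)).prod *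
        hs b (⊥ : Ideal (MvPolynomial (Fin k) ℂ)) := s1
    rw [s3, mul_assoc, mul_comm (hs b _), s2, mul_one]

end Pool.Agent.Lib.GCI
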