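import Pool.Agent.Lib.GCI.Generic

/-!
# Only the trivial common zero implies finite colength
-/

set_option autoImplicit false

namespace Pool.Agent.Lib.GCI

open MvPolynomial

variable {ι : Type} [Fintype ι] {w : ι → ℕ}

theorem FC.of_zero (l : List (MvPolynomial ι ℂ))
    (h : ∀ z : ι → ℂ, (∀ f ∈ l, eval z f = 0) → z = 0) : FC w (idl l) := by
  classical
  have h1 : ∀ i, ∃ n, (X i : MvPolynomial ι ℂ) ^ n ∈ idl l := by
    intro i
    have h2 : (X i : MvPolynomial ι ℂ) ∈ (idl l).radical := by
      rw [← vanishingIdeal_zeroLocus_eq_radical (K := ℂ), mem_vanishingIdeal_iff]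
      intro z hz
      rw [mem_zeroLocus_iff] at hz
      have h3 : z = 0 := h z fun f hf => by
        have := hz f (mem_idl_of_mem hf)
        rwa [MvPolynomial.aeval_eq_eval] at this
      rw [h3]
      simp
    exact h2
  choose n hn using h1
  let N : ℕ := ∑ i, n i
  have hN : ∀ i, (X i : MvPolynomial ι ℂ) ^ N ∈ idl l := by
    intro i
    have : n i ≤ N := Finset.single_le_sum (fun _ _ => Nat.zero_le _) (Finset.mem_univ i)
    obtain ⟨r, hr⟩ := Nat.exists_eq_add_of_le this
    rw [hr, pow_add]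
    exact Ideal.mul_mem_right _ _ (hn i)
  refine ⟨N * ∑ i, w i + 1, fun d hd p hp => ?_⟩
  rw [p.as_sum]
  refine Ideal.sum_mem _ fun m hm => ?_
  have h2 : Finsupp.weight w m = d := hp (MvPolynomial.mem_support_iff.mp hm)
  have h3 : ∃ i, N ≤ m i := by
    by_contra hcon
    push Not at hcon
    rw [Finsupp.weight_apply, Finsupp.sum_fintype _ _ (by simp)] at h2
    have h4 : ∑ i, m i • w i ≤ N * ∑ i, w i := by
      rw [Finset.mul_sum]
      refine Finset.sum_le_sum fun i _ => ?_
      rw [smul_eq_mul]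
      exact Nat.mul_le_mul_right _ (hcon i).le
    omega
  obtain ⟨i, hi⟩ := h3
  obtain ⟨r, hr⟩ := Nat.exists_eq_add_of_le hi
  have h4 : (monomial m (coeff m p) : MvPolynomial ι ℂ) =
      X i ^ N * monomial (m - Finsupp.single i N) (coeff m p) := by
    rw [X_pow_eq_monomial, monomial_mul, one_mul]
    have h5 : Finsupp.single i N ≤ m := by
      rw [Finsupp.single_le_iff]
      exact hi
    rw [add_comm, tsub_add_cancel_of_le h5]
  rw [h4]
  exact Ideal.mul_mem_right _ _ (hN i)

end Pool.Agent.Lib.GCI
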