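import Pool.Agent.Lib.GCI.Dim

/-!
# Regular sequences of homogeneous elements: permutation, exchange, Hilbert series
-/

set_option autoImplicit false

namespace Pool.Agent.Lib.GCI

open MvPolynomial Module

variable {ι : Type*} {K : Type*} [Field K]

/-- the ideal generated by the elements of a list -/
noncomputable def idl : List (MvPolynomial ι K) → Ideal (MvPolynomial ι K)
  | [] => ⊥
  | f :: l => adj (idl l) f

/-- each element of the list is a nonzerodivisor modulo the elements to its right -/
def RegSeq : List (MvPolynomial ι K) → Prop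
  | [] => True
  | f :: l => RegSeq l ∧ Reg (idl l) f

/-- all the elements are homogeneous of positive degree -/
def Good (w : ι → ℕ) (l : List (MvPolynomial ι K)) : Prop :=
  ∀ f ∈ l, ∃ a, 0 < a ∧ IsWeightedHomogeneous w f a

variable {w : ι → ℕ}

theorem mem_idl_of_mem {l : List (MvPolynomial ι K)} {f : MvPolynomial ι K} (h : f ∈ l) :
    f ∈ idl l := by
  induction l with
  | nil => simp at h
  | cons g l ih =>
    rw [List.mem_cons] at h
    rcases h with rfl | h
    · exact self_mem_adj _ _
    · exact le_adj _ _ (ih h)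

theorem idl_le {l : List (MvPolynomial ι K)} {J : Ideal (MvPolynomial ι K)}
    (h : ∀ f ∈ l, f ∈ J) : idl l ≤ J := by
  induction l with
  | nil => exact bot_le
  | cons g l ih =>
    show adj (idl l) g ≤ J
    unfold adj
    refine sup_le (ih fun f hf => h f (List.mem_cons_of_mem _ hf)) ?_
    rw [Ideal.span_singleton_le_iff_mem]
    exact h g List.mem_cons_self

theorem idl_eq_span (l : List (MvPolynomial ι K)) : idl l = Ideal.span {f | f ∈ l} := by
  apply le_antisymm
  · exact idl_le fun f hf => Ideal.subset_span hf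
  · rw [Ideal.span_le]
    intro f hf
    exact mem_idl_of_mem hf

theorem idl_perm {l l' : List (MvPolynomial ι K)} (h : l.Perm l') : idl l = idl l' := by
  apply le_antisymm
  · exact idl_le fun f hf => mem_idl_of_mem (h.mem_iff.mp hf)
  · exact idl_le fun f hf => mem_idl_of_mem (h.mem_iff.mpr hf)

theorem Good.homI {l : List (MvPolynomial ι K)} (h : Good w l) : HomI w (idl l) := by
  induction l with
  | nil => exact HomI.bot
  | cons f l ih =>
    obtain ⟨a, _, ha⟩ := h f List.mem_cons_self
    exact HomI.adj (ih fun g hg => h g (List.mem_cons_of_mem _ hg)) ha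

theorem Good.perm {l l' : List (MvPolynomial ι K)} (h : Good w l) (hp : l.Perm l') :
    Good w l' := fun f hf => h f (hp.mem_iff.mpr hf)

theorem Good.tail {l : List (MvPolynomial ι K)} {f : MvPolynomial ι K} (h : Good w (f :: l)) :
    Good w l := fun g hg => h g (List.mem_cons_of_mem _ hg)

/-- Homogeneous regular sequences can be permuted. -/
theorem RegSeq.perm {l l' : List (MvPolynomial ι K)} (hp : l.Perm l') (hg : Good w l)
    (hr : RegSeq l) : RegSeq l' := by
  induction hp with
  | nil => trivial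
  | cons f hp ih =>
    refine ⟨ih hg.tail hr.1, ?_⟩
    rw [← idl_perm hp]
    exact hr.2
  | swap f g l =>
    obtain ⟨⟨h1, h2⟩, h3⟩ := hr
    obtain ⟨a, ha, haf⟩ := hg f (by simp)
    obtain ⟨b, hb, hbg⟩ := hg g (by simp)
    have h4 : Reg (idl l) g := Reg.swap_left hg.tail.tail.homI ha haf hbg h2 h3
    exact ⟨⟨h1, h4⟩, Reg.swap_right h2 h3⟩
  | trans hp1 hp2 ih1 ih2 => exact ih2 (hg.perm hp1) (ih1 hg hr)

/-- The list `f 0, …, f (j-1), g j, …, g (k-1)`. -/
def mixed (k : ℕ) (f g : ℕ → MvPolynomial ι K) (j : ℕ) : List (MvPolynomial ι K) :=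
  (List.range j).map f ++ (List.range' j (k - j)).map g

theorem mem_mixed {k : ℕ} {f g : ℕ → MvPolynomial ι K} {j : ℕ} {p : MvPolynomial ι K}
    (hj : j ≤ k) :
    p ∈ mixed k f g j ↔ (∃ i, i < j ∧ p = f i) ∨ (∃ i, j ≤ i ∧ i < k ∧ p = g i) := by
  unfold mixed
  rw [List.mem_append, List.mem_map, List.mem_map]
  constructor
  · rintro (⟨i, hi, rfl⟩ | ⟨i, hi, rfl⟩)
    · exact Or.inl ⟨i, List.mem_range.mp hi, rfl⟩
    · rw [List.mem_range'_1] at hi
      exact Or.inr ⟨i, hi.1, by omega, rfl⟩
  · rintro (⟨i, hi, rfl⟩ | ⟨i, hi, hi2, rfl⟩)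
    · exact Or.inl ⟨i, List.mem_range.mpr hi, rfl⟩
    · refine Or.inr ⟨i, ?_, rfl⟩
      rw [List.mem_range'_1]
      omega

variable [Finite ι] (hw : ∀ i, w i ≠ 0)

include hw in
/-- The exchange theorem. -/
theorem exchange_all (k : ℕ) (f g : ℕ → MvPolynomial ι K)
    (hf : ∀ j, j < k → ∃ a, 0 < a ∧ IsWeightedHomogeneous w (f j) a)
    (hg : ∀ j, j < k → ∃ a, 0 < a ∧ IsWeightedHomogeneous w (g j) a)
    (hfc : ∀ j, j ≤ k → FC w (idl (mixed k f g j))) (hreg : RegSeq (mixed k f g 0)) :
    ∀ j, j ≤ k → RegSeq (mixed k f g j) := by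
  have hgood : ∀ j, j ≤ k → Good w (mixed k f g j) := by
    intro j hj p hp
    rw [mem_mixed hj] at hp
    rcases hp with ⟨i, hi, rfl⟩ | ⟨i, hi1, hi2, rfl⟩
    · exact hf i (by omega)
    · exact hg i hi2
  intro j
  induction j with
  | zero => intro _; exact hreg
  | succ j ih =>
    intro hj
    have h1 := ih (by omega)
    let M : List (MvPolynomial ι K) :=
      (List.range j).map f ++ (List.range' (j + 1) (k - (j + 1))).map g
    have hp1 : (mixed k f g j).Perm (g j :: M) := by
      unfold mixed
      have : k - j = (k - (j + 1)) + 1 := by omega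
      rw [this, List.range'_succ, List.map_cons]
      exact List.perm_middle
    have hp2 : (mixed k f g (j + 1)).Perm (f j :: M) := by
      unfold mixed
      rw [List.range_succ, List.map_append, List.append_assoc]
      exact List.perm_middle
    have h2 : RegSeq (g j :: M) := RegSeq.perm hp1 (hgood j (by omega)) h1
    have hM : Good w M := ((hgood j (by omega)).perm hp1).tail
    obtain ⟨a, ha, haf⟩ := hf j (by omega)
    obtain ⟨b, hb, hbg⟩ := hg j (by omega)
    have fc1 : FC w (adj (idl M) (g j)) := by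
      have := hfc j (by omega)
      rw [idl_perm hp1] at this
      exact this
    have fc2 : FC w (adj (idl M) (f j)) := by
      have := hfc (j + 1) hj
      rw [idl_perm hp2] at this
      exact this
    have h3 : Reg (idl M) (f j) := Reg.exchange hw hM.homI hb ha hbg haf h2.2 fc1 fc2
    refine RegSeq.perm hp2.symm ((hgood (j + 1) hj).perm hp2) ⟨h2.1, h3⟩

variable (w) in
/-- Hilbert series of the quotient by the ideal `I` -/
noncomputable def hs (I : Ideal (MvPolynomial ι K)) : PowerSeries ℤ :=
  PowerSeries.mk fun d => (wdim w K d : ℤ) - idim w I d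

include hw in
theorem hs_adj {I : Ideal (MvPolynomial ι K)} (hI : HomI w I) {f : MvPolynomial ι K} {a : ℕ}
    (hf : IsWeightedHomogeneous w f a) (hr : Reg I f) :
    hs w (adj I f) = (1 - PowerSeries.X ^ a) * hs w I := by
  ext d
  rw [sub_mul, one_mul, map_sub, PowerSeries.coeff_X_pow_mul']
  unfold hs
  rw [PowerSeries.coeff_mk, PowerSeries.coeff_mk]
  split_ifs with h
  · rw [PowerSeries.coeff_mk]
    obtain ⟨e, rfl⟩ := Nat.exists_eq_add_of_le h
    rw [Nat.add_sub_cancel_left]
    have h1 := dim_formula hw hI hf e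
    rw [kdim_eq_of_reg hr] at h1
    have : (idim w (adj I f) (a + e) : ℤ) + idim w I e = idim w I (a + e) + wdim w K e := by
      exact_mod_cast h1
    linarith
  · rw [idim_adj_lt hI hf (by omega)]
    ring

include hw in
theorem hs_idl (l : List (MvPolynomial ι K × ℕ))
    (hl : ∀ x ∈ l, 0 < x.2 ∧ IsWeightedHomogeneous w x.1 x.2)
    (hreg : RegSeq (l.map Prod.fst)) :
    hs w (idl (l.map Prod.fst)) =
      (l.map fun x => (1 - PowerSeries.X ^ x.2 : PowerSeries ℤ)).prod *
        hs w (⊥ : Ideal (MvPolynomial ι K)) := by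
  induction l with
  | nil => simp [idl]
  | cons x l ih =>
    have hg : Good w (l.map Prod.fst) := by
      intro f hf
      rw [List.mem_map] at hf
      obtain ⟨y, hy, rfl⟩ := hf
      exact ⟨y.2, hl y (List.mem_cons_of_mem _ hy)⟩
    have h1 := ih (fun y hy => hl y (List.mem_cons_of_mem _ hy)) hreg.1
    have h2 := hs_adj hw hg.homI (hl x List.mem_cons_self).2 hreg.2
    rw [List.map_cons, List.map_cons, List.prod_cons]
    show hs w (adj (idl (l.map Prod.fst)) x.1) = _
    rw [h2, h1, mul_assoc]

end Pool.Agent.Lib.GCI
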