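import Pool.Agent.Lib.GCI.Seq

/-!
# The variables form a regular sequence, and the Hilbert series of the polynomial ring
-/

set_option autoImplicit false

namespace Pool.Agent.Lib.GCI

open MvPolynomial Module

variable {ι : Type*} {K : Type*} [Field K] {w : ι → ℕ}

theorem idl_map_X (l : List ι) :
    idl (l.map (fun i => (X i : MvPolynomial ι K))) = Ideal.span (X '' {i | i ∈ l}) := by
  rw [idl_eq_span]
  congr 1
  ext p
  simp only [Set.mem_ofPred_eq, List.mem_map, Set.mem_image]

/-- distinct variables form a regular sequence -/
theorem regSeq_map_X {l : List ι} (hl : l.Nodup) :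
    RegSeq (l.map (fun i => (X i : MvPolynomial ι K))) := by
  induction l with
  | nil => trivial
  | cons i l ih =>
    rw [List.nodup_cons] at hl
    refine ⟨ih hl.2, ?_⟩
    intro u hu
    rw [idl_map_X, mem_ideal_span_X_image] at hu ⊢
    intro m hm
    classical
    have h1 : (Finsupp.single i 1 + m) ∈ (X i * u).support := by
      rw [MvPolynomial.mem_support_iff, coeff_X_mul]
      exact MvPolynomial.mem_support_iff.mp hm
    obtain ⟨j, hj, hj2⟩ := hu _ h1
    refine ⟨j, hj, ?_⟩
    have hij : i ≠ j := by
      rintro rfl
      exact hl.1 hj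
    rw [Finsupp.add_apply, Finsupp.single_apply, if_neg hij, zero_add] at hj2
    exact hj2

/-- homogeneous polynomials of positive degree lie in the ideal of the variables -/
theorem mem_idl_X_of_pos {l : List ι} (hl : ∀ i, i ∈ l) {d : ℕ} (hd : 0 < d)
    {p : MvPolynomial ι K} (hp : IsWeightedHomogeneous w p d) :
    p ∈ idl (l.map (fun i => (X i : MvPolynomial ι K))) := by
  rw [idl_map_X, mem_ideal_span_X_image]
  intro m hm
  have h1 : Finsupp.weight w m = d := hp (MvPolynomial.mem_support_iff.mp hm)
  by_contra hcon
  push Not at hcon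
  have h2 : m = 0 := by
    ext i
    exact hcon i (hl i)
  rw [h2] at h1
  simp at h1
  omega

theorem hs_vars [Finite ι] (hw : ∀ i, w i ≠ 0) {l : List ι} (hl : ∀ i, i ∈ l) :
    hs w (idl (l.map (fun i => (X i : MvPolynomial ι K)))) = 1 := by
  ext d
  unfold hs
  rw [PowerSeries.coeff_mk, PowerSeries.coeff_one]
  split_ifs with h
  · subst h
    -- degree zero
    have hW : W (K := K) w 0 = Submodule.span K {(1 : MvPolynomial ι K)} := by
      apply le_antisymm
      · intro p hp
        have h1 : weightedHomogeneousComponent w 0 p = p := weightedHomogeneousComponent_eq_self hp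
        rw [weightedHomogeneousComponent_zero _ hw] at h1
        rw [Submodule.mem_span_singleton]
        refine ⟨coeff 0 p, ?_⟩
        rw [← h1, MvPolynomial.smul_eq_C_mul, mul_one, coeff_zero_C]
      · rw [Submodule.span_singleton_le_iff_mem]
        exact isWeightedHomogeneous_one K w
    have h1 : wdim w K 0 = 1 := by
      unfold wdim
      rw [hW]
      exact finrank_span_singleton one_ne_zero
    have h2 : idim w (idl (l.map (fun i => (X i : MvPolynomial ι K)))) 0 = 0 := by
      unfold idim
      have : W w 0 ⊓ (idl (l.map (fun i => (X i : MvPolynomial ι K)))).restrictScalars K = ⊥ := by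
        rw [eq_bot_iff]
        rintro p ⟨hp1, hp2⟩
        rw [hW] at hp1
        have hp1' : p ∈ Submodule.span K {(1 : MvPolynomial ι K)} := hp1
        rw [Submodule.mem_span_singleton] at hp1'
        obtain ⟨c, rfl⟩ := hp1'
        have hp2' : c • (1 : MvPolynomial ι K) ∈ idl (l.map (fun i => (X i : MvPolynomial ι K))) :=
          hp2
        rw [idl_map_X, mem_ideal_span_X_image] at hp2'
        by_cases hc : c = 0
        · subst hc; simp
        · exfalso
          have h3 : (0 : ι →₀ ℕ) ∈ (c • (1 : MvPolynomial ι K)).support := by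
            rw [MvPolynomial.mem_support_iff, coeff_smul, coeff_zero_one]
            simpa using hc
          obtain ⟨i, _, hi⟩ := hp2' _ h3
          exact hi rfl
      rw [this]
      exact finrank_bot K _
    rw [h1, h2]
    norm_num
  · have h1 : idim w (idl (l.map (fun i => (X i : MvPolynomial ι K)))) d = wdim w K d := by
      unfold idim wdim
      have : W w d ⊓ (idl (l.map (fun i => (X i : MvPolynomial ι K)))).restrictScalars K =
          W w d := by
        rw [inf_eq_left]
        intro p hp
        exact mem_idl_X_of_pos hl (by omega) hp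
      rw [this]
    rw [h1]
    ring

/-- The Hilbert series of the polynomial ring. -/
theorem prod_mul_hs_bot [Finite ι] (hw : ∀ i, w i ≠ 0) {l : List ι} (hnd : l.Nodup)
    (hl : ∀ i, i ∈ l) :
    (l.map fun i => (1 - PowerSeries.X ^ (w i) : PowerSeries ℤ)).prod *
      hs w (⊥ : Ideal (MvPolynomial ι K)) = 1 := by
  have h1 := hs_idl (K := K) hw (l.map fun i => ((X i : MvPolynomial ι K), w i)) ?_ ?_
  · rw [List.map_map, List.map_map] at h1
    exact h1.symm.trans (hs_vars (K := K) hw hl)
  · intro x hx
    rw [List.mem_map] at hx
    obtain ⟨i, _, rfl⟩ := hx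
    exact ⟨Nat.pos_of_ne_zero (hw i), isWeightedHomogeneous_X K w i⟩
  · rw [List.map_map]
    exact regSeq_map_X hnd

end Pool.Agent.Lib.GCI
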